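import Pool.Agent.R868.Stab.Core

/-!
# Chains of closed pairs attached to a sequence of critical edges
-/

set_option autoImplicit false
set_option linter.unusedSectionVars false

namespace R868.Stab

open Finset

variable {V : Type} [Fintype V] [DecidableEq V]

/-- A chain of length `K` for the edges `x l - u l`; `e = 0` or `e = 1` is the kind of the
local lower bound, `D` is the bound at one end. -/
def HasChain (G : SimpleGraph V) (K : ℕ) (x u : ℕ → V) (D e : ℤ) : Prop :=
  ∃ A N : ℕ → Finset V,
    (∀ l < K, ∀ p ∈ A l, ∀ q, G.Adj p q → q ∈ N l ∨ (p = x l ∧ q = u l)) ∧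
    (∀ l < K, x l ∈ A l ∧ u l ∉ N l) ∧
    (∀ l, l + 1 < K → A l ⊆ A (l + 1) ∧ x (l + 1) ∉ A l ∧ N l ⊆ N (l + 1) ∧ u l ∈ N (l + 1)) ∧
    (∀ l, l + 1 < K → ∀ B M, Cl G B M → A l ⊆ B → B ⊆ (A (l + 1)).erase (x (l + 1)) →
      insert (u l) (N l) ⊆ M → M ⊆ N (l + 1) →
      1 + (1 - e) * w (A l) (N l) + e * w (A (l + 1)) (N (l + 1)) ≤ w B M) ∧
    (e = 0 → w (A (K - 1)) (N (K - 1)) ≤ D) ∧ (e = 1 → w (A 0) (N 0) ≤ D)

/-- the constraints on the pairs used for the chain. -/
def Con (G : SimpleGraph V) (K : ℕ) (x u : ℕ → V) (J : ℕ → Finset V) (l : ℕ)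
    (T : Finset V × Finset V) : Prop :=
  T.1 ⊆ J K ∧ Disjoint T.2 (J K) ∧
  (∀ p ∈ T.1, ∀ q, G.Adj p q → q ∈ T.2 ∨ (p = x l ∧ q = u l)) ∧
  (∀ i ≤ l, x i ∈ T.1) ∧ u l ∉ T.2 ∧ (∀ i, l < i → i < K → u i ∉ T.2)

/-- modular cost. -/
def cost (T : Finset V × Finset V) : ℤ :=
  (2 * (Fintype.card V : ℤ) + 1) * w T.1 T.2 + ((T.1.card : ℤ) + (T.2.card : ℤ))

theorem cost_modular (T T' : Finset V × Finset V) :
    cost (T.1 ∩ T'.1, T.2 ∩ T'.2) + cost (T.1 ∪ T'.1, T.2 ∪ T'.2) = cost T + cost T' := by
  unfold cost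
  have h := w_modular T.1 T.2 T'.1 T'.2
  have h1 := card_union_add_card_inter T.1 T'.1
  have h2 := card_union_add_card_inter T.2 T'.2
  have h3 : (2 * (Fintype.card V : ℤ) + 1) * w (T.1 ∩ T'.1) (T.2 ∩ T'.2)
      + (2 * (Fintype.card V : ℤ) + 1) * w (T.1 ∪ T'.1) (T.2 ∪ T'.2)
      = (2 * (Fintype.card V : ℤ) + 1) * w T.1 T.2
      + (2 * (Fintype.card V : ℤ) + 1) * w T'.1 T'.2 := by
    rw [← mul_add, h, mul_add]
  have h1' : ((T.1 ∪ T'.1).card : ℤ) + ((T.1 ∩ T'.1).card : ℤ) = T.1.card + T'.1.card := by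
    exact_mod_cast h1
  have h2' : ((T.2 ∪ T'.2).card : ℤ) + ((T.2 ∩ T'.2).card : ℤ) = T.2.card + T'.2.card := by
    exact_mod_cast h2
  linarith

theorem cost_w {T T' : Finset V × Finset V} (h : cost T ≤ cost T') : w T.1 T.2 ≤ w T'.1 T'.2 := by
  by_contra hlt
  push Not at hlt
  unfold cost at h
  have h1 : w T'.1 T'.2 + 1 ≤ w T.1 T.2 := hlt
  have h2 := card_le_univ T'.1
  have h3 := card_le_univ T'.2
  have h4 : (2 * (Fintype.card V : ℤ) + 1) * (w T'.1 T'.2 + 1)
      ≤ (2 * (Fintype.card V : ℤ) + 1) * w T.1 T.2 := by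
    apply mul_le_mul_of_nonneg_left h1
    positivity
  have h5 : (0 : ℤ) ≤ (T.1.card : ℤ) := by positivity
  have h6 : (0 : ℤ) ≤ (T.2.card : ℤ) := by positivity
  have h2' : (T'.1.card : ℤ) ≤ Fintype.card V := by exact_mod_cast h2
  have h3' : (T'.2.card : ℤ) ≤ Fintype.card V := by exact_mod_cast h3
  nlinarith

/-- a set of the same cost contained in another one is equal to it. -/
theorem cost_eq_sub {A N A' N' : Finset V} (hA : A' ⊆ A) (hN : N' ⊆ N)
    (h : cost (A, N) = cost (A', N')) : A ⊆ A' ∧ N ⊆ N' := by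
  have h0 : w A N ≤ w A' N' := cost_w h.le
  have h0' : w A' N' ≤ w A N := cost_w h.ge
  have h1 : w A N = w A' N' := le_antisymm h0 h0'
  have hA1 := card_le_card hA
  have hN1 := card_le_card hN
  unfold cost at h
  simp only at h
  rw [h1] at h
  have h2 : (A.card : ℤ) + N.card = A'.card + N'.card := by linarith
  have h3 : A.card + N.card = A'.card + N'.card := by exact_mod_cast h2
  have h4 : A'.card = A.card := by omega
  have h5 : N'.card = N.card := by omega
  exact ⟨(eq_of_subset_of_card_le hA h4.ge).ge, (eq_of_subset_of_card_le hN h5.ge).ge⟩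

theorem Con.inter {G : SimpleGraph V} {K : ℕ} {x u : ℕ → V} {J : ℕ → Finset V} {l l' : ℕ}
    (hxu : ∀ i ≤ K, G.Adj (x i) (u i)) (hinj : ∀ i ≤ K, ∀ j ≤ K, i ≠ j → x i ≠ x j)
    (hll : l < l') (hl' : l' < K) {T T' : Finset V × Finset V}
    (hT : Con G K x u J l T) (hT' : Con G K x u J l' T') :
    Con G K x u J l (T.1 ∩ T'.1, T.2 ∩ T'.2) := by
  obtain ⟨a1, a2, a3, a4, a5, a6⟩ := hT
  obtain ⟨b1, b2, b3, b4, b5, b6⟩ := hT'
  refine ⟨?_, ?_, ?_, ?_, ?_, ?_⟩
  · exact inter_subset_left.trans a1
  · exact a2.mono_left inter_subset_left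
  · intro p hp q hq
    simp only [mem_inter] at hp ⊢
    rcases a3 p hp.1 q hq with h | h
    · rcases b3 p hp.2 q hq with h' | h'
      · exact Or.inl ⟨h, h'⟩
      · exfalso
        have h1 : x l' ∈ T.1 := h'.1 ▸ hp.1
        rcases a3 (x l') h1 (u l') (hxu l' (by omega)) with h2 | h2
        · exact a6 l' hll hl' h2
        · exact hinj l' (by omega) l (by omega) (by omega) h2.1
    · exact Or.inr h
  · intro i hi
    simp only [mem_inter]
    exact ⟨a4 i hi, b4 i (by omega)⟩
  · simp only [mem_inter]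
    exact fun h => a5 h.1
  · intro i hi hiK
    simp only [mem_inter]
    exact fun h => a6 i hi hiK h.1

theorem Con.union {G : SimpleGraph V} {K : ℕ} {x u : ℕ → V} {J : ℕ → Finset V} {l l' : ℕ}
    (hxu : ∀ i ≤ K, G.Adj (x i) (u i)) (hinj : ∀ i ≤ K, ∀ j ≤ K, i ≠ j → x i ≠ x j)
    (hll : l < l') (hl' : l' < K) {T T' : Finset V × Finset V}
    (hT : Con G K x u J l T) (hT' : Con G K x u J l' T') :
    Con G K x u J l' (T.1 ∪ T'.1, T.2 ∪ T'.2) := by
  obtain ⟨a1, a2, a3, a4, a5, a6⟩ := hT
  obtain ⟨b1, b2, b3, b4, b5, b6⟩ := hT'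
  refine ⟨?_, ?_, ?_, ?_, ?_, ?_⟩
  · exact union_subset a1 b1
  · exact disjoint_union_left.mpr ⟨a2, b2⟩
  · intro p hp q hq
    simp only [mem_union] at hp ⊢
    rcases hp with hp | hp
    · rcases a3 p hp q hq with h | h
      · exact Or.inl (Or.inl h)
      · left
        right
        rcases b3 (x l) (b4 l (by omega)) (u l) (hxu l (by omega)) with h2 | h2
        · rw [h.2]
          exact h2
        · exact absurd h2.1 (hinj l (by omega) l' (by omega) (by omega))
    · rcases b3 p hp q hq with h | h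
      · exact Or.inl (Or.inr h)
      · exact Or.inr h
  · intro i hi
    simp only [mem_union]
    exact Or.inr (b4 i hi)
  · simp only [mem_union]
    rintro (h | h)
    · exact a6 l' hll hl' h
    · exact b5 h
  · intro i hi hiK
    simp only [mem_union]
    rintro (h | h)
    · exact a6 i (by omega) hiK h
    · exact b6 i hi hiK h

/-- Chain of the first kind. -/
theorem chainA {G : SimpleGraph V} {a : ℕ} {K : ℕ} (hK : 1 ≤ K) {x u : ℕ → V}
    {J : ℕ → Finset V} {D : ℤ} (h1 : ∀ I, Ind G I → I.card ≤ a)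
    (hJ : ∀ l ≤ K, Spec G a (J l) (x l) (u l))
    (hinj : ∀ i ≤ K, ∀ j ≤ K, i ≠ j → x i ≠ x j)
    (hxu' : ∀ i ≤ K, ∀ j ≤ K, i ≠ j → x i ≠ u j)
    (hin : ∀ l ≤ K, ∀ i < l, x i ∈ J l)
    (hD : (Fintype.card V : ℤ) ≤ 2 * a + D) :
    HasChain G K x u D 0 := by
  classical
  have hxu : ∀ i ≤ K, G.Adj (x i) (u i) := fun i hi => (hJ i hi).2.2.2.1
  -- the vertex u i is not a neighbour of x j for j < i
  have hnadj : ∀ i ≤ K, ∀ j < i, ¬ G.Adj (x j) (u i) := by
    intro i hi j hj hadj
    exact (hJ i hi).not_adj (hin i hi j hj) (hinj j (by omega) i hi (by omega))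
      (hxu' j (by omega) i hi (by omega)) hadj (hJ i hi).2.2.1
  -- neighbours of x i are not in J K
  have hnK : ∀ i < K, ∀ q, G.Adj (x i) q → q ∉ J K := by
    intro i hi q hq
    exact (hJ K le_rfl).not_adj (hin K le_rfl i hi) (hinj i (by omega) K le_rfl (by omega))
      (hxu' i (by omega) K le_rfl (by omega)) hq
  -- existence of minimizers
  have hex : ∀ l < K, ∃ T : Finset V × Finset V, Con G K x u J l T ∧
      ∀ T', Con G K x u J l T' → cost T ≤ cost T' := by
    intro l hl
    have hne : ((univ : Finset (Finset V × Finset V)).filter (Con G K x u J l)).Nonempty := by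
      refine ⟨((range (l + 1)).image x,
        (univ.filter (fun q => ∃ i ≤ l, G.Adj (x i) q)).erase (u l)), ?_⟩
      simp only [mem_filter, mem_univ, true_and]
      refine ⟨?_, ?_, ?_, ?_, ?_, ?_⟩
      · intro p hp
        rw [mem_image] at hp
        obtain ⟨i, hi, rfl⟩ := hp
        rw [mem_range] at hi
        exact hin K le_rfl i (by omega)
      · rw [disjoint_left]
        intro q hq hqJ
        simp only [mem_erase, mem_filter, mem_univ, true_and] at hq
        obtain ⟨_, i, hi, hiq⟩ := hq
        exact hnK i (by omega) q hiq hqJ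
      · intro p hp q hq
        simp only [mem_image, mem_range] at hp
        obtain ⟨i, hi, rfl⟩ := hp
        simp only [mem_erase, mem_filter, mem_univ, true_and]
        by_cases hqu : q = u l
        · right
          refine ⟨?_, hqu⟩
          by_contra hne
          rcases lt_or_ge i l with h | h
          · rw [hqu] at hq
            exact hnadj l (by omega) i h hq
          · have : i = l := by omega
            exact hne (by rw [this])
        · exact Or.inl ⟨hqu, i, by omega, hq⟩
      · intro i hi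
        simp only [mem_image, mem_range]
        exact ⟨i, by omega, rfl⟩
      · simp
      · intro i hi hiK
        simp only [mem_erase, mem_filter, mem_univ, true_and]
        rintro ⟨_, j, hj, hadj⟩
        exact hnadj i (by omega) j (by omega) hadj
    obtain ⟨T, hT, hmin⟩ := exists_min_image _ cost hne
    rw [mem_filter] at hT
    exact ⟨T, hT.2, fun T' hT' => hmin T' (by simp [hT'])⟩
  have hex' : ∀ l : ℕ, ∃ T : Finset V × Finset V, l < K → (Con G K x u J l T ∧
      ∀ T', Con G K x u J l T' → cost T ≤ cost T') := by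
    intro l
    by_cases hl : l < K
    · obtain ⟨T, hT⟩ := hex l hl
      exact ⟨T, fun _ => hT⟩
    · exact ⟨(∅, ∅), fun h => absurd h hl⟩
  choose T hT using hex'
  have hC : ∀ l < K, Con G K x u J l (T l) := fun l hl => (hT l hl).1
  have hmin : ∀ l < K, ∀ T', Con G K x u J l T' → cost (T l) ≤ cost T' :=
    fun l hl => (hT l hl).2
  have hnest : ∀ l l', l < l' → l' < K → (T l).1 ⊆ (T l').1 ∧ (T l).2 ⊆ (T l').2 := by
    intro l l' hll hl'
    have hi := Con.inter hxu hinj hll hl' (hC l (by omega)) (hC l' hl')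
    have hu := Con.union hxu hinj hll hl' (hC l (by omega)) (hC l' hl')
    have h3 := hmin l (by omega) _ hi
    have h4 := hmin l' hl' _ hu
    have h5 := cost_modular (T l) (T l')
    have h6 : cost (T l) = cost ((T l).1 ∩ (T l').1, (T l).2 ∩ (T l').2) := by linarith
    have h7 := cost_eq_sub (A := (T l).1) (N := (T l).2) inter_subset_left inter_subset_left h6
    exact ⟨h7.1.trans inter_subset_right, h7.2.trans inter_subset_right⟩
  refine ⟨fun l => (T l).1, fun l => (T l).2, ?_, ?_, ?_, ?_, ?_, ?_⟩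
  · intro l hl
    exact (hC l hl).2.2.1
  · intro l hl
    exact ⟨(hC l hl).2.2.2.1 l le_rfl, (hC l hl).2.2.2.2.1⟩
  · intro l hl
    have hn := hnest l (l + 1) (by omega) hl
    refine ⟨hn.1, ?_, hn.2, ?_⟩
    · intro hx
      rcases (hC l (by omega)).2.2.1 _ hx (u (l + 1)) (hxu (l + 1) (by omega)) with h | h
      · exact (hC l (by omega)).2.2.2.2.2 (l + 1) (by omega) hl h
      · exact hinj (l + 1) (by omega) l (by omega) (by omega) h.1
    · rcases (hC (l + 1) hl).2.2.1 (x l) ((hC (l + 1) hl).2.2.2.1 l (by omega)) (u l)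
        (hxu l (by omega)) with h | h
      · exact h
      · exact absurd h.1 (hinj l (by omega) (l + 1) (by omega) (by omega))
  · intro l hl B M hcl hAB hBA hNM hMN
    have hCl := hC l (by omega)
    have hCl1 := hC (l + 1) hl
    have hBJ : B ⊆ J K := (hBA.trans (erase_subset _ _)).trans hCl1.1
    have hMJ : Disjoint M (J K) := hCl1.2.1.mono_left hMN
    have hdis : Disjoint B M := (hMJ.mono_right hBJ).symm
    have hxB : x l ∈ B := hAB (hCl.2.2.2.1 l le_rfl)
    have hb := symm_bound h1 (hJ l (by omega)) hcl hdis hxB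
    have hcon : Con G K x u J l (B ∩ J l, M \ J l) := by
      refine ⟨?_, ?_, ?_, ?_, ?_, ?_⟩
      · exact inter_subset_left.trans hBJ
      · exact hMJ.mono_left sdiff_subset
      · intro p hp q hq
        simp only [mem_inter] at hp
        simp only [mem_sdiff]
        by_cases hqJ : q ∈ J l
        · right
          rcases (hJ l (by omega)).2.2.2.2 p hp.2 q hqJ hq with h | h
          · exact h
          · exfalso
            have hpK : p ∈ J K := hBJ hp.1
            rw [h.1] at hpK
            exact hnK l (by omega) (u l) (hxu l (by omega)) hpK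
        · exact Or.inl ⟨hcl p hp.1 q hq, hqJ⟩
      · intro i hi
        simp only [mem_inter]
        refine ⟨hAB (hCl.2.2.2.1 i hi), ?_⟩
        rcases Nat.lt_or_ge i l with h | h
        · exact hin l (by omega) i h
        · have : i = l := by omega
          rw [this]
          exact (hJ l (by omega)).2.1
      · simp only [mem_sdiff]
        exact fun h => h.2 (hJ l (by omega)).2.2.1
      · intro i hi hiK
        simp only [mem_sdiff]
        intro h
        have h2 := hMN h.1
        rcases Nat.lt_or_ge (l + 1) i with h3 | h3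
        · exact hCl1.2.2.2.2.2 i h3 hiK h2
        · have : i = l + 1 := by omega
          rw [this] at h2
          exact hCl1.2.2.2.2.1 h2
    have h3 := cost_w (hmin l (by omega) _ hcon)
    simp only at h3 ⊢
    linarith
  · intro _
    -- bound at the last index
    have hK1 : K - 1 < K := by omega
    set L := K - 1 with hL
    have hLK : L ≤ K := by omega
    have hcon : Con G K x u J L (((J L ∩ J K).erase (x K)).erase (u K), (J L ∪ J K)ᶜ) := by
      refine ⟨?_, ?_, ?_, ?_, ?_, ?_⟩
      · exact ((erase_subset _ _).trans (erase_subset _ _)).trans inter_subset_right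
      · rw [disjoint_left]
        intro z hz hzJ
        simp only [mem_compl, mem_union, not_or] at hz
        exact hz.2 hzJ
      · intro p hp q hq
        simp only [mem_erase, mem_inter] at hp
        simp only [mem_compl, mem_union, not_or]
        by_cases hqL : q ∈ J L
        · right
          rcases (hJ L hLK).2.2.2.2 p hp.2.2.1 q hqL hq with h | h
          · exact h
          · exfalso
            have hpK := hp.2.2.2
            rw [h.1] at hpK
            exact hnK L hK1 (u L) (hxu L hLK) hpK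
        · left
          exact ⟨hqL, (hJ K le_rfl).not_adj hp.2.2.2 hp.2.1 hp.1 hq⟩
      · intro i hi
        simp only [mem_erase, mem_inter]
        refine ⟨hxu' i (by omega) K le_rfl (by omega), hinj i (by omega) K le_rfl (by omega), ?_,
          hin K le_rfl i (by omega)⟩
        rcases Nat.lt_or_ge i L with h | h
        · exact hin L hLK i h
        · have : i = L := by omega
          rw [this]
          exact (hJ L hLK).2.1
      · simp only [mem_compl, mem_union, not_not]
        exact Or.inl (hJ L hLK).2.2.1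
      · intro i hi hiK
        omega
    have h3 := cost_w (hmin L hK1 _ hcon)
    simp only at h3
    have h4 : w (((J L ∩ J K).erase (x K)).erase (u K)) (J L ∪ J K)ᶜ ≤ D := by
      unfold w
      have c1 := card_union_add_card_inter (J L) (J K)
      have c2 := card_add_card_compl (J L ∪ J K)
      have c3 := (hJ L hLK).1
      have c4 := (hJ K le_rfl).1
      have c5 : (J L ∩ J K).card ≤ (((J L ∩ J K).erase (x K)).erase (u K)).card + 2 := by
        have d1 := pred_card_le_card_erase (s := J L ∩ J K) (a := x K)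
        have d2 := pred_card_le_card_erase (s := (J L ∩ J K).erase (x K)) (a := u K)
        omega
      omega
    linarith
  · intro h
    norm_num at h

end R868.Stab
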