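import Pool.Agent.R868.Stab.Chain

/-!
# Two chains through the same centres have bounded length
-/

set_option autoImplicit false
set_option linter.unusedSectionVars false

namespace R868.Stab

open Finset

variable {V : Type} [Fintype V] [DecidableEq V]

/-- duality reverses a chain. -/
theorem chain_dual {G : SimpleGraph V} {K : ℕ} (hK : 1 ≤ K) {x u : ℕ → V} {D : ℤ}
    (h : HasChain G K x u D 0) :
    HasChain G K (fun m => u (K - 1 - m)) (fun m => x (K - 1 - m)) D 1 := by
  obtain ⟨A, N, h1, h2, h3, h4, h5, h6⟩ := h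
  refine ⟨fun m => (N (K - 1 - m))ᶜ, fun m => (A (K - 1 - m))ᶜ, ?_, ?_, ?_, ?_, ?_, ?_⟩
  · intro l hl p hp q hq
    simp only [mem_compl] at hp ⊢
    by_cases hqA : q ∈ A (K - 1 - l)
    · right
      rcases h1 (K - 1 - l) (by omega) q hqA p hq.symm with h | h
      · exact absurd h hp
      · exact ⟨h.2, h.1⟩
    · exact Or.inl hqA
  · intro l hl
    simp only [mem_compl, not_not]
    have := h2 (K - 1 - l) (by omega)
    exact ⟨this.2, this.1⟩
  · intro l hl
    obtain ⟨g1, g2, g3, g4⟩ := h3 (K - 1 - (l + 1)) (by omega)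
    have he : K - 1 - (l + 1) + 1 = K - 1 - l := by omega
    rw [he] at g1 g2 g3 g4
    refine ⟨?_, ?_, ?_, ?_⟩
    · exact compl_subset_compl.mpr g3
    · simp only [mem_compl, not_not]
      exact g4
    · exact compl_subset_compl.mpr g1
    · simp only [mem_compl]
      exact g2
  · intro l hl B M hcl hAB hBA hNM hMN
    have he : K - 1 - (l + 1) + 1 = K - 1 - l := by omega
    have key := h4 (K - 1 - (l + 1)) (by omega) Mᶜ Bᶜ hcl.dual ?_ ?_ ?_ ?_
    · rw [w_dual, he] at key
      have e1 := w_dual (A (K - 1 - (l + 1))) (N (K - 1 - (l + 1)))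
      have e2 := w_dual (A (K - 1 - l)) (N (K - 1 - l))
      simp only
      linarith
    · intro z hz
      simp only [mem_compl]
      intro hzM
      have := hMN hzM
      simp only [mem_compl] at this
      exact this hz
    · intro z hz
      simp only [mem_compl] at hz
      rw [he]
      simp only [mem_erase]
      have hz' : z ∉ insert (x (K - 1 - l)) (A (K - 1 - l))ᶜ := fun h => hz (hNM h)
      simp only [mem_insert, mem_compl, not_or, not_not] at hz'
      exact hz'
    · intro z hz
      simp only [mem_compl]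
      intro hzB
      have hz' := hBA hzB
      simp only [mem_erase, mem_compl] at hz'
      rcases mem_insert.mp hz with h | h
      · exact hz'.1 h
      · exact hz'.2 h
    · intro z hz
      simp only [mem_compl] at hz
      rw [he]
      by_contra hzN
      exact hz (hAB (by simp only [mem_compl]; exact hzN))
  · intro h
    norm_num at h
  · intro _
    have h7 := h5 rfl
    simp only [Nat.sub_zero]
    rw [w_dual]
    exact h7

theorem move {A N A' N' Ap Np : Finset V} (hA : A ⊆ Ap) (hN : N ⊆ Np) :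
    w (A ∪ (Ap ∩ A')) (N ∪ (Np ∩ N')) =
      w A N + w (Ap ∩ A') (Np ∩ N') - w (A ∩ A') (N ∩ N') := by
  have h := w_modular A N (Ap ∩ A') (Np ∩ N')
  have e1 : A ∩ (Ap ∩ A') = A ∩ A' := by
    rw [← inter_assoc, inter_eq_left.mpr hA]
  have e2 : N ∩ (Np ∩ N') = N ∩ N' := by
    rw [← inter_assoc, inter_eq_left.mpr hN]
  rw [e1, e2] at h
  linarith

theorem w_erase {A N : Finset V} {x : V} (hx : x ∈ A) : w (A.erase x) N = w A N + 1 := by
  unfold w
  have := card_erase_add_one hx
  omega

theorem w_insert {A N : Finset V} {u : V} (hu : u ∉ N) : w A (insert u N) = w A N + 1 := by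
  unfold w
  rw [card_insert_of_notMem hu]
  push_cast
  ring

theorem combine {G : SimpleGraph V} {a : ℕ} (h1 : ∀ I, Ind G I → I.card ≤ a)
    (h2 : ∀ v, ∃ I, Ind G I ∧ I.card = a ∧ v ∉ I) {K : ℕ} (hK : 1 ≤ K) {x u v : ℕ → V}
    {D e f : ℤ} (he : e = 0 ∨ e = 1) (hf : f = 0 ∨ f = 1)
    (hadj1 : ∀ l < K, G.Adj (x l) (u l)) (hadj2 : ∀ l < K, G.Adj (x l) (v l))
    (hne : ∀ l < K, u l ≠ v l) (c1 : HasChain G K x u D e) (c2 : HasChain G K x v D f) :
    (K : ℤ) ≤ 2 * D + 3 := by
  obtain ⟨A, N, a1, a2, a3, a4, a5, a6⟩ := c1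
  obtain ⟨B, M, b1, b2, b3, b4, b5, b6⟩ := c2
  set P : ℕ → ℤ := fun l => w (A l ∩ B l) (N l ∩ M l) with hP
  have huM : ∀ l < K, u l ∈ M l := by
    intro l hl
    rcases b1 l hl (x l) (b2 l hl).1 (u l) (hadj1 l hl) with h | h
    · exact h
    · exact absurd h.2 (hne l hl)
  have hvN : ∀ l < K, v l ∈ N l := by
    intro l hl
    rcases a1 l hl (x l) (a2 l hl).1 (v l) (hadj2 l hl) with h | h
    · exact h
    · exact absurd h.2.symm (hne l hl)
  -- closedness of the pairs before and after
  have clA : ∀ l < K, Cl G ((A l).erase (x l)) (N l) := by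
    intro l hl p hp q hq
    rw [mem_erase] at hp
    rcases a1 l hl p hp.2 q hq with h | h
    · exact h
    · exact absurd h.1 hp.1
  have clA' : ∀ l < K, Cl G (A l) (insert (u l) (N l)) := by
    intro l hl p hp q hq
    rw [mem_insert]
    rcases a1 l hl p hp q hq with h | h
    · exact Or.inr h
    · exact Or.inl h.2
  have clB : ∀ l < K, Cl G ((B l).erase (x l)) (M l) := by
    intro l hl p hp q hq
    rw [mem_erase] at hp
    rcases b1 l hl p hp.2 q hq with h | h
    · exact h
    · exact absurd h.1 hp.1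
  have clB' : ∀ l < K, Cl G (B l) (insert (v l) (M l)) := by
    intro l hl p hp q hq
    rw [mem_insert]
    rcases b1 l hl p hp q hq with h | h
    · exact Or.inr h
    · exact Or.inl h.2
  have hafter : ∀ l < K, w (A l ∩ B l) (insert (u l) (N l) ∩ insert (v l) (M l)) = P l + 2 := by
    intro l hl
    have e1 : insert (u l) (N l) ∩ insert (v l) (M l)
        = insert (u l) (insert (v l) (N l ∩ M l)) := by
      ext z
      simp only [mem_inter, mem_insert]
      constructor
      · rintro ⟨h3 | h3, h4 | h4⟩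
        · exact Or.inl h3
        · exact Or.inl h3
        · exact Or.inr (Or.inl h4)
        · exact Or.inr (Or.inr ⟨h3, h4⟩)
      · rintro (h3 | h3 | h3)
        · refine ⟨Or.inl h3, Or.inr ?_⟩
          rw [h3]
          exact huM l hl
        · refine ⟨Or.inr ?_, Or.inl h3⟩
          rw [h3]
          exact hvN l hl
        · exact ⟨Or.inr h3.1, Or.inr h3.2⟩
    rw [e1, w_insert, w_insert]
    · rw [hP]
      ring
    · rw [mem_inter]
      exact fun h => (b2 l hl).2 h.2
    · rw [mem_insert, mem_inter, not_or]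
      exact ⟨hne l hl, fun h => (a2 l hl).2 h.1⟩
  have hbefore : ∀ l < K, w ((A l).erase (x l) ∩ (B l).erase (x l)) (N l ∩ M l) = P l + 1 := by
    intro l hl
    have e1 : (A l).erase (x l) ∩ (B l).erase (x l) = (A l ∩ B l).erase (x l) := by
      ext z
      simp only [mem_inter, mem_erase]
      tauto
    rw [e1, w_erase]
    rw [mem_inter]
    exact ⟨(a2 l hl).1, (b2 l hl).1⟩
  have hstep : ∀ l, l + 1 < K →
      P l + 1 + e * (w (A (l + 1)) (N (l + 1)) - w (A l) (N l))
        + f * (w (B (l + 1)) (M (l + 1)) - w (B l) (M l)) ≤ P (l + 1) := by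
    intro l hl
    obtain ⟨s1, s2, s3, s4⟩ := a3 l hl
    obtain ⟨t1, t2, t3, t4⟩ := b3 l hl
    have hA1 : A l ⊆ (A (l + 1)).erase (x (l + 1)) := by
      intro z hz
      rw [mem_erase]
      exact ⟨fun h => s2 (h ▸ hz), s1 hz⟩
    have hN1 : insert (u l) (N l) ⊆ N (l + 1) := insert_subset s4 s3
    have hB1 : B l ⊆ (B (l + 1)).erase (x (l + 1)) := by
      intro z hz
      rw [mem_erase]
      exact ⟨fun h => t2 (h ▸ hz), t1 hz⟩
    have hM1 : insert (v l) (M l) ⊆ M (l + 1) := insert_subset t4 t3
    -- first move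
    have m1 := move (A' := B l) (N' := insert (v l) (M l)) hA1 hN1
    have k1 := a4 l hl (A l ∪ ((A (l + 1)).erase (x (l + 1)) ∩ B l))
      (insert (u l) (N l) ∪ (N (l + 1) ∩ insert (v l) (M l)))
      ((clA' l (by omega)).union ((clA (l + 1) hl).inter (clB' l (by omega))))
      subset_union_left (union_subset hA1 inter_subset_left)
      subset_union_left (union_subset hN1 inter_subset_left)
    rw [m1, w_insert (a2 l (by omega)).2, hafter l (by omega)] at k1
    -- second move
    have m2 := move (A' := (A (l + 1)).erase (x (l + 1))) (N' := N (l + 1)) hB1 hM1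
    have k2 := b4 l hl (B l ∪ ((B (l + 1)).erase (x (l + 1)) ∩ (A (l + 1)).erase (x (l + 1))))
      (insert (v l) (M l) ∪ (M (l + 1) ∩ N (l + 1)))
      ((clB' l (by omega)).union ((clB (l + 1) hl).inter (clA (l + 1) hl)))
      subset_union_left (union_subset hB1 inter_subset_left)
      subset_union_left (union_subset hM1 inter_subset_left)
    have e3 : w ((B (l + 1)).erase (x (l + 1)) ∩ (A (l + 1)).erase (x (l + 1)))
        (M (l + 1) ∩ N (l + 1)) = P (l + 1) + 1 := by
      rw [inter_comm, inter_comm (M (l + 1))]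
      exact hbefore (l + 1) hl
    have e4 : w (B l ∩ (A (l + 1)).erase (x (l + 1))) (insert (v l) (M l) ∩ N (l + 1))
        = w ((A (l + 1)).erase (x (l + 1)) ∩ B l) (N (l + 1) ∩ insert (v l) (M l)) := by
      rw [inter_comm, inter_comm (insert (v l) (M l))]
    rw [m2, w_insert (b2 l (by omega)).2, e3, e4] at k2
    linarith
  have hind : ∀ l, l < K → P 0 - e * w (A 0) (N 0) - f * w (B 0) (M 0) + l ≤
      P l - e * w (A l) (N l) - f * w (B l) (M l) := by
    intro l
    induction l with
    | zero =>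
      intro _
      simp
    | succ l ih =>
      intro hl
      have h3 := ih (by omega)
      have h4 := hstep l hl
      push_cast
      linarith
  have hfin := hind (K - 1) (by omega)
  have hP0 : 0 ≤ P 0 + 1 := by
    rw [← hbefore 0 (by omega)]
    exact hall h1 h2 _ _ ((clA 0 (by omega)).inter (clB 0 (by omega)))
  have hPK : P (K - 1) + 1 ≤ w (A (K - 1)) (N (K - 1)) + 1 + (w (B (K - 1)) (M (K - 1)) + 1) := by
    have h5 := hall h1 h2 _ _ ((clA (K - 1) (by omega)).union (clB (K - 1) (by omega)))
    have h6 := w_modular ((A (K - 1)).erase (x (K - 1))) (N (K - 1))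
      ((B (K - 1)).erase (x (K - 1))) (M (K - 1))
    rw [hbefore (K - 1) (by omega), w_erase (a2 (K - 1) (by omega)).1,
      w_erase (b2 (K - 1) (by omega)).1] at h6
    linarith
  have hcast : ((K - 1 : ℕ) : ℤ) = (K : ℤ) - 1 := by
    omega
  rw [hcast] at hfin
  rcases he with rfl | rfl <;> rcases hf with rfl | rfl
  · have h7 := a5 rfl
    have h8 := b5 rfl
    linarith
  · have h7 := a5 rfl
    have h8 := b6 rfl
    linarith
  · have h7 := a6 rfl
    have h8 := b5 rfl
    linarith
  · have h7 := a6 rfl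
    have h8 := b6 rfl
    linarith

end R868.Stab
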