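import Mathlib

/-!
# Closed pairs of a graph and their uncrossing

A pair `(A, N)` of vertex sets is closed when every neighbour of a vertex of `A` lies in `N`;
`w A N = |N| - |A|`.  Main results of this file: the Hall type inequality, and the lower
bound for closed pairs obtained from a critical set.
-/

set_option autoImplicit false
set_option linter.unusedSectionVars false

namespace R868.Stab

open Finset

variable {V : Type} [Fintype V] [DecidableEq V]

/-- `(A, N)` is closed: all neighbours of `A` are in `N`. -/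
def Cl (G : SimpleGraph V) (A N : Finset V) : Prop := ∀ p ∈ A, ∀ q, G.Adj p q → q ∈ N

/-- the weight `|N| - |A|`. -/
def w (A N : Finset V) : ℤ := (N.card : ℤ) - (A.card : ℤ)

/-- independent set. -/
def Ind (G : SimpleGraph V) (I : Finset V) : Prop := ∀ p ∈ I, ∀ q ∈ I, ¬ G.Adj p q

/-- `J` has `a + 1` vertices and `x u` is its only edge. -/
def Spec (G : SimpleGraph V) (a : ℕ) (J : Finset V) (x u : V) : Prop :=
  J.card = a + 1 ∧ x ∈ J ∧ u ∈ J ∧ G.Adj x u ∧
    ∀ p ∈ J, ∀ q ∈ J, G.Adj p q → (p = x ∧ q = u) ∨ (p = u ∧ q = x)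

theorem w_modular (A N A' N' : Finset V) :
    w (A ∩ A') (N ∩ N') + w (A ∪ A') (N ∪ N') = w A N + w A' N' := by
  unfold w
  have h1 := card_union_add_card_inter A A'
  have h2 := card_union_add_card_inter N N'
  omega

theorem Cl.inter {G : SimpleGraph V} {A N A' N' : Finset V} (h : Cl G A N) (h' : Cl G A' N') :
    Cl G (A ∩ A') (N ∩ N') := by
  intro p hp q hq
  rw [mem_inter] at hp ⊢
  exact ⟨h p hp.1 q hq, h' p hp.2 q hq⟩

theorem Cl.union {G : SimpleGraph V} {A N A' N' : Finset V} (h : Cl G A N) (h' : Cl G A' N') :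
    Cl G (A ∪ A') (N ∪ N') := by
  intro p hp q hq
  rw [mem_union] at hp ⊢
  rcases hp with hp | hp
  · exact Or.inl (h p hp q hq)
  · exact Or.inr (h' p hp q hq)

/-- the dual pair. -/
theorem Cl.dual {G : SimpleGraph V} {A N : Finset V} (h : Cl G A N) : Cl G Nᶜ Aᶜ := by
  intro p hp q hq
  rw [mem_compl] at hp ⊢
  intro hqA
  exact hp (h q hqA p hq.symm)

theorem w_dual (A N : Finset V) : w Nᶜ Aᶜ = w A N := by
  unfold w
  have h1 := card_add_card_compl A
  have h2 := card_add_card_compl N
  omega

theorem hall_disj {G : SimpleGraph V} {a : ℕ} (h1 : ∀ I, Ind G I → I.card ≤ a)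
    (h2 : ∀ v, ∃ I, Ind G I ∧ I.card = a ∧ v ∉ I) :
    ∀ (n : ℕ) (A N : Finset V), A.card = n → Cl G A N → Disjoint A N → A.card ≤ N.card := by
  intro n
  induction n using Nat.strong_induction_on with
  | _ n ih =>
    intro A N hn hc hd
    rcases A.eq_empty_or_nonempty with h0 | ⟨v, hv⟩
    · simp [h0]
    · obtain ⟨I, hI, hIa, hvI⟩ := h2 v
      have hlt : (A ∩ I).card < n := by
        rw [← hn]
        apply card_lt_card
        refine ⟨inter_subset_left, ?_⟩
        intro hsub
        exact hvI (mem_inter.mp (hsub hv)).2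
      have hc1 : Cl G (A ∩ I) (N \ I) := by
        intro p hp q hq
        rw [mem_inter] at hp
        rw [mem_sdiff]
        exact ⟨hc p hp.1 q hq, fun hqI => hI p hp.2 q hqI hq⟩
      have hd1 : Disjoint (A ∩ I) (N \ I) :=
        hd.mono inter_subset_left sdiff_subset
      have h3 := ih _ hlt (A ∩ I) (N \ I) rfl hc1 hd1
      have hW : Ind G (A ∪ (I \ N)) := by
        intro p hp q hq hpq
        have hkey : ∀ p q, G.Adj p q → p ∈ A → q ∈ A ∪ (I \ N) → False := by
          intro p q hpq hp hq
          have hqN := hc p hp q hpq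
          rcases mem_union.mp hq with h | h
          · exact disjoint_left.mp hd h hqN
          · exact (mem_sdiff.mp h).2 hqN
        rcases mem_union.mp hp with h | h
        · exact hkey p q hpq h hq
        · rcases mem_union.mp hq with h' | h'
          · exact hkey q p hpq.symm h' hp
          · exact hI p (mem_sdiff.mp h).1 q (mem_sdiff.mp h').1 hpq
      have hWc := h1 _ hW
      have e1 : A ∪ (I \ N) = (A \ I) ∪ (I \ N) := by
        ext z
        simp only [mem_union, mem_sdiff]
        constructor
        · rintro (h | h)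
          · by_cases hz : z ∈ I
            · exact Or.inr ⟨hz, fun hzN => disjoint_left.mp hd h hzN⟩
            · exact Or.inl ⟨h, hz⟩
          · exact Or.inr h
        · rintro (h | h)
          · exact Or.inl h.1
          · exact Or.inr h
      have e2 : Disjoint (A \ I) (I \ N) := by
        rw [disjoint_left]
        intro z hz hz'
        exact (mem_sdiff.mp hz).2 (mem_sdiff.mp hz').1
      rw [e1, card_union_of_disjoint e2] at hWc
      have e3 := card_sdiff_add_card_inter A I
      have e4 := card_sdiff_add_card_inter I N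
      have e5 := card_sdiff_add_card_inter N I
      have e6 : (I ∩ N).card = (N ∩ I).card := by rw [inter_comm]
      omega

/-- Hall type inequality: a closed pair has nonnegative weight. -/
theorem hall {G : SimpleGraph V} {a : ℕ} (h1 : ∀ I, Ind G I → I.card ≤ a)
    (h2 : ∀ v, ∃ I, Ind G I ∧ I.card = a ∧ v ∉ I) (A N : Finset V) (hc : Cl G A N) :
    0 ≤ w A N := by
  have hc1 : Cl G (A \ N) (N \ A) := by
    intro p hp q hq
    rw [mem_sdiff] at hp ⊢
    exact ⟨hc p hp.1 q hq, fun hqA => hp.2 (hc q hqA p hq.symm)⟩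
  have hd : Disjoint (A \ N) (N \ A) := by
    rw [disjoint_left]
    intro z hz hz'
    exact (mem_sdiff.mp hz).2 (mem_sdiff.mp hz').1
  have h3 := hall_disj h1 h2 _ (A \ N) (N \ A) rfl hc1 hd
  have e3 := card_sdiff_add_card_inter A N
  have e4 := card_sdiff_add_card_inter N A
  have e6 : (A ∩ N).card = (N ∩ A).card := by rw [inter_comm]
  unfold w
  omega

/-- lower bound for a closed pair obtained from a critical set. -/
theorem symm_bound {G : SimpleGraph V} {a : ℕ} (h1 : ∀ I, Ind G I → I.card ≤ a)
    {J A N : Finset V} {x u : V} (hJ : Spec G a J x u) (hc : Cl G A N) (hd : Disjoint A N)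
    (hx : x ∈ A) : w (A ∩ J) (N \ J) + 1 ≤ w A N := by
  obtain ⟨hJa, hxJ, huJ, hxu, hJe⟩ := hJ
  have hW : Ind G (A ∪ (J \ N)) := by
    intro p hp q hq hpq
    have hkey : ∀ p q, G.Adj p q → p ∈ A → q ∈ A ∪ (J \ N) → False := by
      intro p q hpq hp hq
      have hqN := hc p hp q hpq
      rcases mem_union.mp hq with h | h
      · exact disjoint_left.mp hd h hqN
      · exact (mem_sdiff.mp h).2 hqN
    rcases mem_union.mp hp with h | h
    · exact hkey p q hpq h hq
    · rcases mem_union.mp hq with h' | h'
      · exact hkey q p hpq.symm h' hp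
      · have huN : u ∈ N := hc x hx u hxu
        rcases hJe p (mem_sdiff.mp h).1 q (mem_sdiff.mp h').1 hpq with h3 | h3
        · rw [h3.2] at h'
          exact (mem_sdiff.mp h').2 huN
        · rw [h3.1] at h
          exact (mem_sdiff.mp h).2 huN
  have hWc := h1 _ hW
  have e1 : A ∪ (J \ N) = (A \ J) ∪ (J \ N) := by
    ext z
    simp only [mem_union, mem_sdiff]
    constructor
    · rintro (h | h)
      · by_cases hz : z ∈ J
        · exact Or.inr ⟨hz, fun hzN => disjoint_left.mp hd h hzN⟩
        · exact Or.inl ⟨h, hz⟩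
      · exact Or.inr h
    · rintro (h | h)
      · exact Or.inl h.1
      · exact Or.inr h
  have e2 : Disjoint (A \ J) (J \ N) := by
    rw [disjoint_left]
    intro z hz hz'
    exact (mem_sdiff.mp hz).2 (mem_sdiff.mp hz').1
  rw [e1, card_union_of_disjoint e2] at hWc
  have e3 := card_sdiff_add_card_inter A J
  have e4 := card_sdiff_add_card_inter J N
  have e5 := card_sdiff_add_card_inter N J
  have e6 : (J ∩ N).card = (N ∩ J).card := by rw [inter_comm]
  unfold w
  omega

/-- A critical set contains no edge other than its own: useful form. -/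
theorem Spec.not_adj {G : SimpleGraph V} {a : ℕ} {J : Finset V} {x u : V}
    (hJ : Spec G a J x u) {p q : V} (hp : p ∈ J) (hpx : p ≠ x) (hpu : p ≠ u)
    (hpq : G.Adj p q) : q ∉ J := by
  intro hq
  rcases hJ.2.2.2.2 p hp q hq hpq with h | h
  · exact hpx h.1
  · exact hpu h.1

theorem Spec.symm {G : SimpleGraph V} {a : ℕ} {J : Finset V} {x u : V}
    (hJ : Spec G a J x u) : Spec G a J u x := by
  refine ⟨hJ.1, hJ.2.2.1, hJ.2.1, hJ.2.2.2.1.symm, ?_⟩
  intro p hp q hq hpq
  rcases hJ.2.2.2.2 p hp q hq hpq with h | h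
  · exact Or.inr h
  · exact Or.inl h

end R868.Stab
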