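import Pool.Agent.R868.Stab.Gain

/-!
# Bounded order of stable graphs with bounded defect
-/

set_option autoImplicit false
set_option linter.unusedSectionVars false

namespace R868.Stab

open Finset

/-- Critical graphs with minimum degree at least three and bounded defect have bounded order. -/
theorem crit_bound (δ : ℕ) : ∃ R : ℕ, ∀ (V : Type) [Fintype V] [DecidableEq V]
    (G : SimpleGraph V) (a : ℕ), (∀ I, Ind G I → I.card ≤ a) →
    (∀ v, ∃ I, Ind G I ∧ I.card = a ∧ v ∉ I) →
    (∀ x u, G.Adj x u → ∃ J, Spec G a J x u) →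
    (∀ v, ∃ u : Fin 3 → V, Function.Injective u ∧ ∀ c, G.Adj v (u c)) →
    Fintype.card V ≤ 2 * a + δ → Fintype.card V ≤ 2 * R + δ := by
  classical
  obtain ⟨K, hK⟩ : ∃ K, K = 2 * δ + 4 := ⟨_, rfl⟩
  obtain ⟨R, hR⟩ := Pool.Agent.H430R3.SW.ramsey
    (α := Fin 3 → (Bool × Bool × Bool × Bool × Bool)) (K + 2)
  refine ⟨R, ?_⟩
  intro V _ _ G a h1 h2 h3 h4 h5
  by_contra hcon
  have haR : R ≤ a := by omega
  have hne : Nonempty V := by
    by_contra h
    rw [not_nonempty_iff] at h
    have : Fintype.card V = 0 := Fintype.card_eq_zero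
    omega
  obtain ⟨v0⟩ := hne
  obtain ⟨I, hI, hIa, _⟩ := h2 v0
  choose uu huu hadj using h4
  have hJJ : ∀ v c, ∃ J, Spec G a J v (uu v c) := fun v c => h3 v _ (hadj v c)
  choose JJ hJJ using hJJ
  let e := I.equivFinOfCardEq hIa
  let x0 : ℕ → V := fun i => if h : i < a then ((e.symm ⟨i, h⟩ : I) : V) else v0
  have hx0I : ∀ i, i < a → x0 i ∈ I := by
    intro i hi
    simp only [x0, hi, dif_pos]
    exact (e.symm ⟨i, hi⟩).2
  have hx0inj : ∀ i j, i < a → j < a → x0 i = x0 j → i = j := by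
    intro i j hi hj hij
    simp only [x0, hi, hj, dif_pos] at hij
    have h6 := e.symm.injective (Subtype.ext hij)
    simpa using h6
  obtain ⟨g, hgm, hgR, col, hcol⟩ := hR (fun i j c =>
    (decide (x0 i ∈ JJ (x0 j) c), decide (uu (x0 i) c ∈ JJ (x0 j) c),
      decide (x0 j ∈ JJ (x0 i) c), decide (uu (x0 j) c ∈ JJ (x0 i) c),
      decide (uu (x0 i) c = uu (x0 j) c)))
  let gg : ℕ → ℕ := fun i => if h : i < K + 2 then g ⟨i, h⟩ else 0
  have hgg : ∀ i (h : i < K + 2), gg i = g ⟨i, h⟩ := by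
    intro i h
    simp only [gg, h, dif_pos]
  have hgga : ∀ i ≤ K + 1, gg i < a := by
    intro i hi
    rw [hgg i (by omega)]
    exact lt_of_lt_of_le (hgR _) haR
  have hggm : ∀ i j, i < j → j ≤ K + 1 → gg i < gg j := by
    intro i j hij hj
    rw [hgg i (by omega), hgg j (by omega)]
    exact hgm hij
  have hc : ∀ (c : Fin 3) (i l : ℕ), i < l → l ≤ K + 1 →
      (decide (x0 (gg i) ∈ JJ (x0 (gg l)) c), decide (uu (x0 (gg i)) c ∈ JJ (x0 (gg l)) c),
      decide (x0 (gg l) ∈ JJ (x0 (gg i)) c), decide (uu (x0 (gg l)) c ∈ JJ (x0 (gg i)) c),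
      decide (uu (x0 (gg i)) c = uu (x0 (gg l)) c)) = col c := by
    intro c i l hil hl
    have h6 := hcol ⟨i, by omega⟩ ⟨l, by omega⟩ hil
    have h7 := congrFun h6 c
    rw [hgg i (by omega), hgg l (by omega)]
    exact h7
  refine homog (K := K) (by omega) (x := fun i => x0 (gg i)) (u := fun c i => uu (x0 (gg i)) c)
    (J := fun c i => JJ (x0 (gg i)) c) (δ := δ) h1 h2 ?_ ?_ ?_ h5 (by omega)
    (fun c => (col c).1 = true) (fun c => (col c).2.1 = true) (fun c => (col c).2.2.1 = true)
    (fun c => (col c).2.2.2.1 = true) (fun c => (col c).2.2.2.2 = true) ?_ ?_ ?_ ?_ ?_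
  · intro c l hl
    exact hJJ _ c
  · intro i hi j hj hij
    refine ⟨?_, ?_⟩
    · intro h
      have h6 := hx0inj _ _ (hgga i hi) (hgga j hj) h
      rcases Nat.lt_or_gt_of_ne hij with h7 | h7
      · have := hggm i j h7 hj
        omega
      · have := hggm j i h7 hi
        omega
    · exact hI _ (hx0I _ (hgga i hi)) _ (hx0I _ (hgga j hj))
  · intro c d hcd l hl h
    exact hcd (huu _ h)
  · intro c i l hil hl
    rw [← hc c i l hil hl]
    simp
  · intro c i l hil hl
    rw [← hc c i l hil hl]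
    simp
  · intro c i l hil hl
    rw [← hc c i l hil hl]
    simp
  · intro c i l hil hl
    rw [← hc c i l hil hl]
    simp
  · intro c i l hil hl
    rw [← hc c i l hil hl]
    simp

theorem exists_crit {V : Type} [Fintype V] [DecidableEq V] (G : SimpleGraph V) (a : ℕ)
    (h1 : ∀ I, Ind G I → I.card ≤ a) :
    ∃ H : SimpleGraph V, H ≤ G ∧ (∀ I, Ind H I → I.card ≤ a) ∧
      ∀ x u, H.Adj x u → ∃ J, Spec H a J x u := by
  classical
  have hfin : ({H : SimpleGraph V | H ≤ G ∧ ∀ I, Ind H I → I.card ≤ a} :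
      Set (SimpleGraph V)).Finite := Set.toFinite _
  obtain ⟨H, hH⟩ := hfin.exists_minimal ⟨G, le_rfl, h1⟩
  refine ⟨H, hH.1.1, hH.1.2, ?_⟩
  intro x u hxu
  set H' := H.deleteEdges {s(x, u)} with hH'
  have hle : H' ≤ H := SimpleGraph.deleteEdges_le _
  have hnot : ¬ H ≤ H' := by
    intro h
    have h6 := h hxu
    rw [hH', SimpleGraph.deleteEdges_adj] at h6
    exact h6.2 (by simp)
  have hmem : ¬ (∀ I, Ind H' I → I.card ≤ a) := by
    intro h
    exact hnot (hH.2 ⟨hle.trans hH.1.1, h⟩ hle)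
  push Not at hmem
  obtain ⟨I, hI, hIa⟩ := hmem
  obtain ⟨J, hJI, hJa⟩ := exists_subset_card_eq (s := I) (n := a + 1) hIa
  have hJ' : Ind H' J := fun p hp q hq => hI p (hJI hp) q (hJI hq)
  have hedge : ∀ p ∈ J, ∀ q ∈ J, H.Adj p q → (p = x ∧ q = u) ∨ (p = u ∧ q = x) := by
    intro p hp q hq hpq
    have h6 := hJ' p hp q hq
    rw [hH', SimpleGraph.deleteEdges_adj] at h6
    push Not at h6
    have h7 := h6 hpq
    rw [Set.mem_singleton_iff, Sym2.eq_iff] at h7
    exact h7
  have hnJ : ¬ Ind H J := by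
    intro h
    have := hH.1.2 J h
    omega
  unfold Ind at hnJ
  push Not at hnJ
  obtain ⟨p, hp, q, hq, hpq⟩ := hnJ
  rcases hedge p hp q hq hpq with h6 | h6
  · exact ⟨J, hJa, h6.1 ▸ hp, h6.2 ▸ hq, hxu, hedge⟩
  · exact ⟨J, hJa, h6.2 ▸ hq, h6.1 ▸ hp, hxu, hedge⟩

/-- A graph in which no three vertices meet all maximum independent sets, with
`|V| ≤ 2 a + δ`, has bounded order. -/
theorem stable_bound (δ : ℕ) : ∃ R : ℕ, ∀ (V : Type) [Fintype V] [DecidableEq V]
    (G : SimpleGraph V) (a : ℕ), (∀ I, Ind G I → I.card ≤ a) →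
    (∀ S : Finset V, S.card ≤ 3 → ∃ I, Ind G I ∧ I.card = a ∧ Disjoint I S) →
    Fintype.card V ≤ 2 * a + δ → Fintype.card V ≤ R := by
  classical
  obtain ⟨R, hR⟩ := crit_bound δ
  refine ⟨2 * R + δ, ?_⟩
  intro V _ _ G a h1 h2 h3
  obtain ⟨H, hHG, hH1, hH2⟩ := exists_crit G a h1
  have hind : ∀ I, Ind G I → Ind H I := fun I hI p hp q hq h => hI p hp q hq (hHG h)
  refine hR V H a hH1 ?_ hH2 ?_ h3
  · intro v
    obtain ⟨I, hI, hIa, hd⟩ := h2 {v} (by simp)
    exact ⟨I, hind I hI, hIa, fun h => by simp [h] at hd⟩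
  · intro v
    have hdeg : 3 ≤ ((univ : Finset V).filter (fun q => H.Adj v q)).card := by
      by_contra hlt
      push Not at hlt
      obtain ⟨I, hI, hIa, hd⟩ := h2 (insert v ((univ : Finset V).filter (fun q => H.Adj v q)))
        (by
          have := card_insert_le v ((univ : Finset V).filter (fun q => H.Adj v q))
          omega)
      rw [disjoint_right] at hd
      have hvI : v ∉ I := hd (mem_insert_self _ _)
      have hins : Ind H (insert v I) := by
        intro p hp q hq hpq
        rcases mem_insert.mp hp with hp | hp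
        · rcases mem_insert.mp hq with hq | hq
          · rw [hp, hq] at hpq
            exact H.irrefl hpq
          · rw [hp] at hpq
            exact hd (mem_insert_of_mem (by simp [hpq])) hq
        · rcases mem_insert.mp hq with hq | hq
          · rw [hq] at hpq
            exact hd (mem_insert_of_mem (by simp [hpq.symm])) hp
          · exact hind I hI p hp q hq hpq
      have h6 := hH1 _ hins
      rw [card_insert_of_notMem hvI] at h6
      omega
    obtain ⟨t, ht, ht3⟩ := exists_subset_card_eq hdeg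
    obtain ⟨p, q, r, hpq, hpr, hqr, rfl⟩ := card_eq_three.mp ht3
    have hp : H.Adj v p := by
      have := ht (show p ∈ ({p, q, r} : Finset V) by simp)
      simpa using this
    have hq : H.Adj v q := by
      have := ht (show q ∈ ({p, q, r} : Finset V) by simp)
      simpa using this
    have hr : H.Adj v r := by
      have := ht (show r ∈ ({p, q, r} : Finset V) by simp)
      simpa using this
    refine ⟨![p, q, r], ?_, ?_⟩
    · intro i j hij
      fin_cases i <;> fin_cases j <;> simp_all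
    · intro c
      fin_cases c <;> simp [hp, hq, hr]

end R868.Stab
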