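import Pool.Agent.R868.Stab.Combine
import Pool.Agent.H430R3.SW.Ramsey

/-!
# The boundedness theorem for critical graphs
-/

set_option autoImplicit false
set_option linter.unusedSectionVars false

namespace R868.Stab

open Finset

variable {V : Type} [Fintype V] [DecidableEq V]

theorem gain_aux {G : SimpleGraph V} {a : ℕ} (h1 : ∀ I, Ind G I → I.card ≤ a) {k : ℕ}
    {x u : ℕ → V} {J : ℕ → Finset V} (hJ : ∀ l < k, Spec G a (J l) (x l) (u l))
    (hx : ∀ l < k, ∀ i < k, i ≠ l → x i ∉ J l) :
    ∀ m, 2 ≤ m → m ≤ k →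
      2 * a + m ≤ ((univ : Finset V).filter (fun z => ∃ l < m, z ∈ J l)).card
        + ((univ : Finset V).filter (fun z => ∀ l < m, z ∈ J l)).card := by
  intro m hm
  induction m, hm using Nat.le_induction with
  | base =>
    intro hk
    have e1 : (univ : Finset V).filter (fun z => ∃ l < (2 : ℕ), z ∈ J l) = J 0 ∪ J 1 := by
      ext z
      simp only [mem_filter, mem_univ, true_and, mem_union]
      constructor
      · rintro ⟨l, hl, hz⟩
        interval_cases l
        · exact Or.inl hz
        · exact Or.inr hz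
      · rintro (h | h)
        · exact ⟨0, by omega, h⟩
        · exact ⟨1, by omega, h⟩
    have e2 : (univ : Finset V).filter (fun z => ∀ l < (2 : ℕ), z ∈ J l) = J 0 ∩ J 1 := by
      ext z
      simp only [mem_filter, mem_univ, true_and, mem_inter]
      constructor
      · intro h
        exact ⟨h 0 (by omega), h 1 (by omega)⟩
      · rintro ⟨h, h'⟩ l hl
        interval_cases l
        · exact h
        · exact h'
    rw [e1, e2, card_union_add_card_inter, (hJ 0 (by omega)).1, (hJ 1 (by omega)).1]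
    omega
  | succ m hm ih =>
    intro hk
    have ih' := ih (by omega)
    set U := (univ : Finset V).filter (fun z => ∃ l < m, z ∈ J l) with hU
    set B := (univ : Finset V).filter (fun z => ∀ l < m, z ∈ J l) with hB
    have hmU : ∀ z, z ∈ U ↔ ∃ l < m, z ∈ J l := by
      intro z
      simp [hU]
    have hmB : ∀ z, z ∈ B ↔ ∀ l < m, z ∈ J l := by
      intro z
      simp [hB]
    have e1 : (univ : Finset V).filter (fun z => ∃ l < m + 1, z ∈ J l) = U ∪ J m := by
      ext z
      simp only [mem_filter, mem_univ, true_and, mem_union, hmU]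
      constructor
      · rintro ⟨l, hl, hz⟩
        rcases Nat.lt_or_ge l m with h | h
        · exact Or.inl ⟨l, h, hz⟩
        · have : l = m := by omega
          exact Or.inr (this ▸ hz)
      · rintro (⟨l, hl, hz⟩ | h)
        · exact ⟨l, by omega, hz⟩
        · exact ⟨m, by omega, h⟩
    have e2 : (univ : Finset V).filter (fun z => ∀ l < m + 1, z ∈ J l) = B ∩ J m := by
      ext z
      simp only [mem_filter, mem_univ, true_and, mem_inter, hmB]
      constructor
      · intro h
        exact ⟨fun l hl => h l (by omega), h m (by omega)⟩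
      · rintro ⟨h, h'⟩ l hl
        rcases Nat.lt_or_ge l m with h3 | h3
        · exact h l h3
        · have : l = m := by omega
          exact this ▸ h'
    rw [e1, e2]
    have hBU : B ⊆ U := by
      intro z hz
      rw [hmU]
      exact ⟨0, by omega, (hmB z).mp hz 0 (by omega)⟩
    have hxB : ∀ i < k, x i ∉ B := by
      intro i hi hz
      have h3 := (hmB _).mp hz
      by_cases h0 : i = 0
      · exact hx 1 (by omega) i hi (by omega) (h3 1 (by omega))
      · exact hx 0 (by omega) i hi h0 (h3 0 (by omega))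
    have hxU : x m ∉ U := by
      intro hz
      obtain ⟨l, hl, hz⟩ := (hmU _).mp hz
      exact hx l (by omega) m (by omega) (by omega) hz
    have hW : Ind G (B ∪ (J m ∩ U)) := by
      have hkey : ∀ p q, G.Adj p q → p ∈ B → q ∈ U → q ∈ B ∨ q ∈ J m → False := by
        intro p q hpq hp hq hq'
        obtain ⟨l, hl, hql⟩ := (hmU q).mp hq
        have hpl := (hmB p).mp hp l hl
        rcases (hJ l (by omega)).2.2.2.2 p hpl q hql hpq with h | h
        · exact hxB l (by omega) (h.1 ▸ hp)
        · rcases hq' with h4 | h4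
          · exact hxB l (by omega) (h.2 ▸ h4)
          · exact hx m (by omega) l (by omega) (by omega) (h.2 ▸ h4)
      intro p hp q hq hpq
      rcases mem_union.mp hp with hp | hp
      · rcases mem_union.mp hq with hq | hq
        · exact hkey p q hpq hp (hBU hq) (Or.inl hq)
        · rw [mem_inter] at hq
          exact hkey p q hpq hp hq.2 (Or.inr hq.1)
      · rw [mem_inter] at hp
        rcases mem_union.mp hq with hq | hq
        · exact hkey q p hpq.symm hq hp.2 (Or.inr hp.1)
        · rw [mem_inter] at hq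
          rcases (hJ m (by omega)).2.2.2.2 p hp.1 q hq.1 hpq with h | h
          · exact hxU (h.1 ▸ hp.2)
          · exact hxU (h.2 ▸ hq.2)
    have hWc := h1 _ hW
    have e3 : B ∪ (J m ∩ U) = (B \ J m) ∪ (J m ∩ U) := by
      ext z
      simp only [mem_union, mem_inter, mem_sdiff]
      constructor
      · rintro (h | h)
        · by_cases hz : z ∈ J m
          · exact Or.inr ⟨hz, hBU h⟩
          · exact Or.inl ⟨h, hz⟩
        · exact Or.inr h
      · rintro (h | h)
        · exact Or.inl h.1
        · exact Or.inr h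
    have e4 : Disjoint (B \ J m) (J m ∩ U) := by
      rw [disjoint_left]
      intro z hz hz'
      exact (mem_sdiff.mp hz).2 (mem_inter.mp hz').1
    rw [e3, card_union_of_disjoint e4] at hWc
    have c1 := card_union_add_card_inter U (J m)
    have c2 := card_sdiff_add_card_inter B (J m)
    have c3 : (U ∩ J m).card = (J m ∩ U).card := by rw [inter_comm]
    have c4 := (hJ m (by omega)).1
    omega

theorem gain {G : SimpleGraph V} {a : ℕ} (h1 : ∀ I, Ind G I → I.card ≤ a)
    (h2 : ∀ v, ∃ I, Ind G I ∧ I.card = a ∧ v ∉ I) {k : ℕ} (hk : 2 ≤ k)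
    {x u : ℕ → V} {J : ℕ → Finset V} (hJ : ∀ l < k, Spec G a (J l) (x l) (u l))
    (hx : ∀ l < k, ∀ i < k, i ≠ l → x i ∉ J l) (Z : Finset V)
    (hZ : ∀ i < k, (∀ l < k, u i ∈ J l) → u i ∈ Z) :
    2 * a + k ≤ Fintype.card V + Z.card := by
  have h3 := gain_aux h1 hJ hx k hk le_rfl
  set U := (univ : Finset V).filter (fun z => ∃ l < k, z ∈ J l) with hU
  set B := (univ : Finset V).filter (fun z => ∀ l < k, z ∈ J l) with hB
  have hmU : ∀ z, z ∈ U ↔ ∃ l < k, z ∈ J l := by
    intro z
    simp [hU]
  have hmB : ∀ z, z ∈ B ↔ ∀ l < k, z ∈ J l := by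
    intro z
    simp [hB]
  have hcl : Cl G (B \ Z) Uᶜ := by
    intro p hp q hq
    rw [mem_sdiff] at hp
    rw [mem_compl]
    intro hqU
    obtain ⟨l, hl, hql⟩ := (hmU q).mp hqU
    have hpB := (hmB p).mp hp.1
    rcases (hJ l hl).2.2.2.2 p (hpB l hl) q hql hq with h | h
    · by_cases h0 : l = 0
      · exact hx 1 (by omega) l hl (by omega) (h.1 ▸ hpB 1 (by omega))
      · exact hx 0 (by omega) l hl h0 (h.1 ▸ hpB 0 (by omega))
    · apply hp.2
      rw [h.1]
      exact hZ l hl (fun m hm => h.1 ▸ hpB m hm)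
  have h4 := hall h1 h2 _ _ hcl
  unfold w at h4
  have c1 := card_add_card_compl U
  have c2 := card_sdiff_add_card_inter B Z
  have c3 : (B ∩ Z).card ≤ Z.card := card_le_card inter_subset_right
  omega

theorem HasChain.congr {G : SimpleGraph V} {K : ℕ} {x u x' u' : ℕ → V} {D e : ℤ}
    (h : HasChain G K x u D e) (hx : ∀ m < K, x m = x' m) (hu : ∀ m < K, u m = u' m) :
    HasChain G K x' u' D e := by
  obtain ⟨A, N, a1, a2, a3, a4, a5, a6⟩ := h
  refine ⟨A, N, ?_, ?_, ?_, ?_, a5, a6⟩
  · intro l hl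
    rw [← hx l hl, ← hu l hl]
    exact a1 l hl
  · intro l hl
    rw [← hx l hl, ← hu l hl]
    exact a2 l hl
  · intro l hl
    rw [← hx (l + 1) hl, ← hu l (by omega)]
    exact a3 l hl
  · intro l hl
    rw [← hx (l + 1) hl, ← hu l (by omega)]
    exact a4 l hl

/-- the forward direction is available. -/
def Fwd (K : ℕ) (x u : ℕ → V) (J : ℕ → Finset V) : Prop :=
  (∀ i l, i < l → l ≤ K + 1 → x i ∈ J l) ∨ (∀ i l, i < l → l ≤ K + 1 → u l ∈ J i)

theorem fwd_chain {G : SimpleGraph V} {a : ℕ} {K : ℕ} (hK : 1 ≤ K) {x u : ℕ → V}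
    {J : ℕ → Finset V} {D : ℤ} (h1 : ∀ I, Ind G I → I.card ≤ a)
    (hJ : ∀ l ≤ K + 1, Spec G a (J l) (x l) (u l))
    (hx : ∀ i ≤ K + 1, ∀ j ≤ K + 1, i ≠ j → x i ≠ x j ∧ ¬ G.Adj (x i) (x j))
    (hu : ∀ i ≤ K + 1, ∀ j ≤ K + 1, i ≠ j → u i ≠ u j)
    (hD : (Fintype.card V : ℤ) ≤ 2 * a + D) (hF : Fwd K x u J) :
    ∃ e : ℤ, (e = 0 ∨ e = 1) ∧ HasChain G K (fun m => x (m + 1)) (fun m => u (m + 1)) D e := by
  have hxu : ∀ i ≤ K + 1, G.Adj (x i) (u i) := fun i hi => (hJ i hi).2.2.2.1
  have hxu' : ∀ i ≤ K + 1, ∀ j ≤ K + 1, i ≠ j → x i ≠ u j := by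
    intro i hi j hj hij he
    apply (hx j hj i hi (Ne.symm hij)).2
    rw [he]
    exact hxu j hj
  rcases hF with hF | hF
  · refine ⟨0, Or.inl rfl, ?_⟩
    apply chainA hK (J := fun m => J (m + 1)) h1
    · intro l hl
      exact hJ (l + 1) (by omega)
    · intro i hi j hj hij
      exact (hx (i + 1) (by omega) (j + 1) (by omega) (by omega)).1
    · intro i hi j hj hij
      exact hxu' (i + 1) (by omega) (j + 1) (by omega) (by omega)
    · intro l hl i hi
      exact hF (i + 1) (l + 1) (by omega) (by omega)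
    · exact hD
  · refine ⟨1, Or.inr rfl, ?_⟩
    have hc : HasChain G K (fun i => u (K - i)) (fun i => x (K - i)) D 0 := by
      apply chainA hK (J := fun m => J (K - m)) h1
      · intro l hl
        exact (hJ (K - l) (by omega)).symm
      · intro i hi j hj hij
        exact hu (K - i) (by omega) (K - j) (by omega) (by omega)
      · intro i hi j hj hij
        exact (hxu' (K - j) (by omega) (K - i) (by omega) (by omega)).symm
      · intro l hl i hi
        exact hF (K - l) (K - i) (by omega) (by omega)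
      · exact hD
    apply (chain_dual hK hc).congr
    · intro m hm
      have : K - (K - 1 - m) = m + 1 := by omega
      simp only [this]
    · intro m hm
      have : K - (K - 1 - m) = m + 1 := by omega
      simp only [this]

/-- No long homogeneous system of critical edges in three colours. -/
theorem homog {G : SimpleGraph V} {a : ℕ} {K : ℕ} (hK : 1 ≤ K) {x : ℕ → V}
    {u : Fin 3 → ℕ → V} {J : Fin 3 → ℕ → Finset V} {δ : ℕ}
    (h1 : ∀ I, Ind G I → I.card ≤ a)
    (h2 : ∀ v, ∃ I, Ind G I ∧ I.card = a ∧ v ∉ I)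
    (hJ : ∀ c, ∀ l ≤ K + 1, Spec G a (J c l) (x l) (u c l))
    (hx : ∀ i ≤ K + 1, ∀ j ≤ K + 1, i ≠ j → x i ≠ x j ∧ ¬ G.Adj (x i) (x j))
    (huu : ∀ c d, c ≠ d → ∀ l ≤ K + 1, u c l ≠ u d l)
    (hD : Fintype.card V ≤ 2 * a + δ) (hKδ : 2 * δ + 3 < K)
    (al be ga ep et : Fin 3 → Prop)
    (hal : ∀ c i l, i < l → l ≤ K + 1 → (x i ∈ J c l ↔ al c))
    (hbe : ∀ c i l, i < l → l ≤ K + 1 → (u c i ∈ J c l ↔ be c))
    (hga : ∀ c i l, i < l → l ≤ K + 1 → (x l ∈ J c i ↔ ga c))
    (hep : ∀ c i l, i < l → l ≤ K + 1 → (u c l ∈ J c i ↔ ep c))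
    (het : ∀ c i l, i < l → l ≤ K + 1 → (u c i = u c l ↔ et c)) : False := by
  have hxu : ∀ c, ∀ i ≤ K + 1, G.Adj (x i) (u c i) := fun c i hi => (hJ c i hi).2.2.2.1
  -- the u's are distinct
  have hu : ∀ c, ∀ i ≤ K + 1, ∀ j ≤ K + 1, i ≠ j → u c i ≠ u c j := by
    intro c i hi j hj hij he
    have hetc : et c := by
      rcases Nat.lt_or_ge i j with h | h
      · exact (het c i j h hj).mp he
      · exact (het c j i (by omega) hi).mp he.symm
    have hall' : ∀ l ≤ K + 1, u c l = u c 0 := by
      intro l hl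
      rcases Nat.eq_zero_or_pos l with h | h
      · rw [h]
      · exact ((het c 0 l h hl).mpr hetc).symm
    have hg := gain (k := K + 2) h1 h2 (by omega) (x := x) (u := u c) (J := J c)
      (fun l hl => hJ c l (by omega)) ?_ {u c 0} ?_
    · simp only [card_singleton] at hg
      omega
    · intro l hl i hi hil hmem
      have h3 : G.Adj (x i) (u c l) := by
        rw [hall' l (by omega), ← hall' i (by omega)]
        exact hxu c i (by omega)
      refine (hJ c l (by omega)).not_adj hmem (hx i (by omega) l (by omega) hil).1 ?_ h3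
        (hJ c l (by omega)).2.2.1
      intro h4
      rw [h4] at h3
      exact G.irrefl h3
    · intro i hi _
      rw [hall' i (by omega)]
      simp
  -- one of the two directions is available
  have hdir : ∀ c, (al c ∨ ep c) ∨ (ga c ∨ be c) := by
    intro c
    by_contra hcon
    push Not at hcon
    obtain ⟨⟨n1, n2⟩, n3, n4⟩ := hcon
    have hg := gain (k := K + 2) h1 h2 (by omega) (x := x) (u := u c) (J := J c)
      (fun l hl => hJ c l (by omega)) ?_ ∅ ?_
    · simp only [card_empty] at hg
      omega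
    · intro l hl i hi hil hmem
      rcases Nat.lt_or_ge i l with h | h
      · exact n1 ((hal c i l h (by omega)).mp hmem)
      · exact n3 ((hga c l i (by omega) (by omega)).mp hmem)
    · intro i hi hmem
      exfalso
      rcases Nat.lt_or_ge i 1 with h | h
      · exact n4 ((hbe c i 1 h (by omega)).mp (hmem 1 (by omega)))
      · exact n2 ((hep c 0 i (by omega) (by omega)).mp (hmem 0 (by omega)))
  have hDz : (Fintype.card V : ℤ) ≤ 2 * (a : ℤ) + (δ : ℤ) := by exact_mod_cast hD
  -- two colours with a common direction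
  have hfwd : ∀ c d, c ≠ d → (al c ∨ ep c) → (al d ∨ ep d) → False := by
    intro c d hcd hc hd
    have hF : ∀ c, (al c ∨ ep c) → Fwd K x (u c) (J c) := by
      intro c hc
      rcases hc with hc | hc
      · exact Or.inl (fun i l hil hl => (hal c i l hil hl).mpr hc)
      · exact Or.inr (fun i l hil hl => (hep c i l hil hl).mpr hc)
    obtain ⟨e, he, ce⟩ := fwd_chain hK h1 (hJ c) hx (hu c) hDz (hF c hc)
    obtain ⟨f, hf, cf⟩ := fwd_chain hK h1 (hJ d) hx (hu d) hDz (hF d hd)
    have h5 := combine h1 h2 hK he hf (fun l hl => hxu c (l + 1) (by omega))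
      (fun l hl => hxu d (l + 1) (by omega)) (fun l hl => huu c d hcd (l + 1) (by omega)) ce cf
    omega
  have hrev : ∀ c d, c ≠ d → (ga c ∨ be c) → (ga d ∨ be d) → False := by
    intro c d hcd hc hd
    have hF : ∀ c, (ga c ∨ be c) → Fwd K (fun i => x (K + 1 - i)) (fun i => u c (K + 1 - i))
        (fun i => J c (K + 1 - i)) := by
      intro c hc
      rcases hc with hc | hc
      · exact Or.inl (fun i l hil hl =>
          (hga c (K + 1 - l) (K + 1 - i) (by omega) (by omega)).mpr hc)
      · exact Or.inr (fun i l hil hl =>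
          (hbe c (K + 1 - l) (K + 1 - i) (by omega) (by omega)).mpr hc)
    have hchain : ∀ c, (ga c ∨ be c) → ∃ e : ℤ, (e = 0 ∨ e = 1) ∧
        HasChain G K (fun m => x (K + 1 - (m + 1))) (fun m => u c (K + 1 - (m + 1))) (δ : ℤ) e := by
      intro c hc
      exact fwd_chain (x := fun i => x (K + 1 - i)) (u := fun i => u c (K + 1 - i))
        (J := fun i => J c (K + 1 - i)) hK h1 (fun l hl => hJ c (K + 1 - l) (by omega))
        (fun i hi j hj hij => hx (K + 1 - i) (by omega) (K + 1 - j) (by omega) (by omega))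
        (fun i hi j hj hij => hu c (K + 1 - i) (by omega) (K + 1 - j) (by omega) (by omega))
        hDz (hF c hc)
    obtain ⟨e, he, ce⟩ := hchain c hc
    obtain ⟨f, hf, cf⟩ := hchain d hd
    have h5 := combine h1 h2 hK he hf (fun l hl => hxu c (K + 1 - (l + 1)) (by omega))
      (fun l hl => hxu d (K + 1 - (l + 1)) (by omega))
      (fun l hl => huu c d hcd (K + 1 - (l + 1)) (by omega)) ce cf
    omega
  have d0 := hdir 0
  have d1 := hdir 1
  have d2 := hdir 2
  have n01 : (0 : Fin 3) ≠ 1 := by decide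
  have n02 : (0 : Fin 3) ≠ 2 := by decide
  have n12 : (1 : Fin 3) ≠ 2 := by decide
  rcases d0 with d0 | d0
  · rcases d1 with d1 | d1
    · exact hfwd 0 1 n01 d0 d1
    · rcases d2 with d2 | d2
      · exact hfwd 0 2 n02 d0 d2
      · exact hrev 1 2 n12 d1 d2
  · rcases d1 with d1 | d1
    · rcases d2 with d2 | d2
      · exact hfwd 1 2 n12 d1 d2
      · exact hrev 0 2 n02 d0 d2
    · exact hrev 0 1 n01 d0 d1

end R868.Stab
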