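import Pool.Agent.R868.Stab.Final

/-!
# `(k, l)`-stable graphs
-/

set_option autoImplicit false
set_option linter.unusedSectionVars false

namespace R868.Stab

open Finset

/-- `G` is `(k, l)`-stable: deleting any `k` vertices lowers the independence number by at
most `l`. -/
def KLStable {V : Type} (k l : ℕ) (G : SimpleGraph V) : Prop :=
  ∀ S : Finset V, S.card = k →
    G.indepNum ≤ (G.induce {v : V | v ∉ S}).indepNum + l

theorem ind_card_le {V : Type} [Fintype V] (G : SimpleGraph V) (I : Finset V)
    (hI : Ind G I) : I.card ≤ G.indepNum := by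
  classical
  apply SimpleGraph.IsIndepSet.card_le_indepNum
  intro p hp q hq _
  exact hI p (by simpa using hp) q (by simpa using hq)

/-- For a `(k, 0)`-stable graph any set of at most `k` vertices is avoided by a maximum
independent set. -/
theorem KLStable.avoid {V : Type} [Fintype V] [DecidableEq V] {k : ℕ} {G : SimpleGraph V}
    (h : KLStable k 0 G) (hk : k ≤ Fintype.card V) (S : Finset V) (hS : S.card ≤ k) :
    ∃ I, Ind G I ∧ I.card = G.indepNum ∧ Disjoint I S := by
  obtain ⟨T, hST, hT⟩ := exists_superset_card_eq hS hk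
  have h1 := h T hT
  obtain ⟨s, hs⟩ := SimpleGraph.exists_isNIndepSet_indepNum (G := G.induce {v : V | v ∉ T})
  have h2 : G.indepNum ≤ s.card := by
    rw [hs.2]
    omega
  obtain ⟨t, hts, htc⟩ := exists_subset_card_eq h2
  refine ⟨t.map (Function.Embedding.subtype _), ?_, ?_, ?_⟩
  · intro p hp q hq hpq
    rw [mem_map] at hp hq
    obtain ⟨p', hp', rfl⟩ := hp
    obtain ⟨q', hq', rfl⟩ := hq
    have h3 : (G.induce {v : V | v ∉ T}).Adj p' q' := hpq
    exact hs.1 (by exact_mod_cast hts hp') (by exact_mod_cast hts hq') h3.ne h3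
  · rw [card_map, htc]
  · rw [disjoint_left]
    intro z hz hzS
    rw [mem_map] at hz
    obtain ⟨z', _, rfl⟩ := hz
    exact z'.2 (hST hzS)

end R868.Stab
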